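import Mathlib
import Pool.Agent.MP_deb3c6_lc.Main

open Cardinal

namespace Pool.Agent.Results.MP_deb3c6_lc.Covered

open Pool.Agent.Forcing92 Pool.Agent.MP_deb3c6_lc

/-- Adding more than continuum many random reals forces that `ω*` can be covered by
nowhere dense P-sets. -/
theorem result (ι : Type) (hι : 𝔠 < #ι) (p : Cond ι) : Forces (cle ι) covered p :=
  forces_covered hι p

end Pool.Agent.Results.MP_deb3c6_lc.Covered
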